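import Pool.Agent.Helper15.FC.St2

set_option autoImplicit false

/-!
# Module DKR of project FC: the recursion of the divisor functions
-/

open Pool.Agent.Helper15.FC Polynomial

namespace Pool.Agent.Helper62.FC

/-- The tuples counted by `dk`. -/
abbrev Tup {F : Type} [Field F] (k : ℕ) (f : F[X]) : Type :=
  {g : Fin k → F[X] // (∀ i, (g i).Monic) ∧ ∏ i, g i = f}

theorem finite_Tup {F : Type} [Field F] [Fintype F] (k : ℕ) (f : F[X]) (hf : f ≠ 0) :
    Finite (Tup k f) := by
  have h1 : (Set.pi Set.univ (fun _ : Fin k => (Dv f : Set F[X]))).Finite :=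
    Set.Finite.pi (fun _ => (Dv f).finite_toSet)
  have h2 : {g : Fin k → F[X] | (∀ i, (g i).Monic) ∧ ∏ i, g i = f} ⊆
      Set.pi Set.univ (fun _ : Fin k => (Dv f : Set F[X])) := by
    rintro g ⟨hg1, hg2⟩ i -
    exact Finset.mem_coe.2 ((mem_Dv hf).2 ⟨hg1 i, hg2 ▸ Finset.dvd_prod_of_mem g (Finset.mem_univ i)⟩)
  exact (h1.subset h2).to_subtype

theorem dvd_mul_div {F : Type} [Field F] {f g : F[X]} (hg : g.Monic) (h : g ∣ f) :
    g * (f / g) = f := EuclideanDomain.mul_div_cancel' hg.ne_zero h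

theorem div_monic {F : Type} [Field F] {f g : F[X]} (hf : f.Monic) (hg : g.Monic) (h : g ∣ f) :
    (f / g).Monic := by
  refine Polynomial.Monic.of_mul_monic_left hg ?_
  rwa [dvd_mul_div hg h]

/-- splitting off the first entry -/
noncomputable def splitEquiv {F : Type} [Field F] [Fintype F] (k : ℕ) (f : F[X]) (hf : f.Monic) :
    Tup (k + 1) f ≃ (Σ g : (Dv f : Finset F[X]), Tup k (f / (g : F[X]))) where
  toFun g := ⟨⟨g.1 0, (mem_Dv hf.ne_zero).2 ⟨g.2.1 0, by
      have h := g.2.2
      rw [Fin.prod_univ_succ] at h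
      exact ⟨_, h.symm⟩⟩⟩, ⟨fun i => g.1 i.succ, fun i => g.2.1 i.succ, by
      have h := g.2.2
      rw [Fin.prod_univ_succ] at h
      have hd : g.1 0 ∣ f := ⟨_, h.symm⟩
      have h0 : g.1 0 ≠ 0 := (g.2.1 0).ne_zero
      refine mul_left_cancel₀ h0 ?_
      exact h.trans (dvd_mul_div (g.2.1 0) hd).symm⟩⟩
  invFun x := ⟨Fin.cons x.1.1 x.2.1, by
      constructor
      · intro i
        refine Fin.cases ?_ ?_ i
        · simpa using ((mem_Dv hf.ne_zero).1 x.1.2).1
        · intro j
          simpa using x.2.2.1 j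
      · have h := (mem_Dv hf.ne_zero).1 x.1.2
        rw [Fin.prod_univ_succ]
        simp only [Fin.cons_zero, Fin.cons_succ]
        rw [x.2.2.2, dvd_mul_div h.1 h.2]⟩
  left_inv g := by
    apply Subtype.ext
    funext i
    refine Fin.cases ?_ ?_ i
    · simp
    · intro j
      simp
  right_inv x := by
    obtain ⟨⟨a, ha⟩, ⟨h, hh⟩⟩ := x
    rfl

theorem hDKR : StDKR := by
  intro F _ _
  refine ⟨⟨?_, ?_⟩, ?_, ?_, ?_⟩
  · unfold dk
    have : Unique {g : Fin 0 → F[X] // (∀ i, (g i).Monic) ∧ ∏ i, g i = 1} :=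
      { default := ⟨fun _ => 1, fun i => i.elim0, by simp⟩
        uniq := fun g => Subtype.ext (Subsingleton.elim _ _) }
    exact Nat.card_unique
  · intro f _ hf
    unfold dk
    have : IsEmpty {g : Fin 0 → F[X] // (∀ i, (g i).Monic) ∧ ∏ i, g i = f} := by
      refine ⟨fun g => hf ?_⟩
      have := g.2.2
      simpa using this.symm
    exact Nat.card_of_isEmpty
  · intro k f hf
    have h1 : ∀ g : (Dv f : Finset F[X]), Finite (Tup k (f / (g : F[X]))) := by
      intro g
      have h := (mem_Dv hf.ne_zero).1 g.2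
      exact finite_Tup k _ (div_monic hf h.1 h.2).ne_zero
    have h2 : dk (k + 1) f = Nat.card (Σ g : (Dv f : Finset F[X]), Tup k (f / (g : F[X]))) :=
      Nat.card_congr (splitEquiv k f hf)
    rw [h2, Nat.card_sigma]
    exact Finset.sum_coe_sort (Dv f) (fun g => dk k (f / g))
  · intro f hf
    unfold dk
    have : Unique {g : Fin 1 → F[X] // (∀ i, (g i).Monic) ∧ ∏ i, g i = f} :=
      { default := ⟨fun _ => f, fun _ => hf, by simp⟩
        uniq := by
          rintro ⟨g, hg1, hg2⟩
          apply Subtype.ext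
          funext i
          have hi : i = 0 := Subsingleton.elim _ _
          subst hi
          simpa using hg2 }
    exact Nat.card_unique
  · intro k f hf hk
    obtain ⟨j, rfl⟩ : ∃ j, k = j + 1 := ⟨k - 1, by omega⟩
    have h1 : Finite (Tup (j + 1) f) := finite_Tup _ _ hf.ne_zero
    have h2 : Nonempty (Tup (j + 1) f) := by
      refine ⟨⟨Fin.cons f (fun _ => 1), ?_, ?_⟩⟩
      · intro i
        refine Fin.cases ?_ ?_ i
        · simpa using hf
        · intro j
          simp
      · rw [Fin.prod_univ_succ]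
        simp
    exact Nat.card_pos

end Pool.Agent.Helper62.FC
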