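import Pool.Agent.Helper15.FC.St3

set_option autoImplicit false

/-!
# Module FN2 of project FC: uniformity in `n` and the relative error
-/

open Pool.Agent.Helper15.FC Polynomial

namespace Pool.Agent.Helper62.FC

/-- The correlation is at least the number of monic polynomials of degree `n`. -/
theorem corr_ge (hDKR : StDKR) (F : Type) [Field F] [Fintype F] (k l n m : ℕ) (hk : 1 ≤ k)
    (hl : 1 ≤ l) (h : F[X]) (hm : m ≤ n) (hh : h.degree < m) :
    qr F ^ n ≤ (Corr F k l n h : ℝ) := by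
  have h1 : ∀ f ∈ Mn F n, 1 ≤ dk k f * dk l (f + h) := by
    intro f hf
    obtain ⟨hf1, hf2⟩ := mem_Mn.1 hf
    have hd : h.degree < f.degree := by
      rw [Polynomial.degree_eq_natDegree hf1.ne_zero, hf2]
      exact lt_of_lt_of_le hh (by exact_mod_cast hm)
    have h2 := (hDKR F).2.2.2 k f hf1 hk
    have h3 := (hDKR F).2.2.2 l (f + h) (hf1.add_of_left hd) hl
    exact Nat.one_le_iff_ne_zero.2 (Nat.mul_ne_zero (by omega) (by omega))
  have h2 : (Mn F n).card ≤ Corr F k l n h := by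
    unfold Corr
    calc (Mn F n).card = ∑ _f ∈ Mn F n, 1 := by simp
      _ ≤ _ := Finset.sum_le_sum h1
  rw [card_Mn] at h2
  have h3 : ((Fintype.card F ^ n : ℕ) : ℝ) ≤ (Corr F k l n h : ℝ) := by exact_mod_cast h2
  simpa using h3

theorem hFN2 (hFN1 : StFN1) (hDKR : StDKR) : StFN2 := by
  classical
  intro F _ _ k l P P' hk hl hP hP'
  obtain ⟨δ1, C1, hδ1, hC1, H⟩ := hFN1 F k l P P' hk hl hP hP'
  have hq : 1 < qr F := by
    have : 1 < Fintype.card F := Fintype.one_lt_card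
    exact_mod_cast this
  have hq0 : 0 < qr F := by linarith
  refine ⟨δ1 / 4, 2 * C1, by positivity, by linarith, ?_⟩
  intro m
  have hm0 : (0 : ℝ) ≤ (m : ℝ) := Nat.cast_nonneg m
  by_cases hc : C1 * qr F ^ (-(δ1 * m)) ≤ 1 / 2
  · -- the main case
    have hex : ∀ n : ℕ, ∃ E : Finset F[X],
        (E.card : ℝ) ≤ C1 * qr F ^ ((1 - δ1) * m) ∧
        (m ≤ n → (n : ℝ) ≤ qr F ^ (δ1 * m) →
          ∀ h ∈ Lw F m, h ∉ E → h ≠ 0 →
            |(Corr F k l n h : ℝ) - Mt P P' n h| ≤ C1 * qr F ^ ((n : ℝ) - δ1 * m)) := by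
      intro n
      by_cases h1 : m ≤ n ∧ (n : ℝ) ≤ qr F ^ (δ1 * m)
      · obtain ⟨E, -, hE1, hE2⟩ := H n m h1.1 h1.2
        exact ⟨E, hE1, fun _ _ => hE2⟩
      · refine ⟨∅, ?_, fun h2 h3 => absurd ⟨h2, h3⟩ h1⟩
        rw [Finset.card_empty, Nat.cast_zero]
        positivity
    choose E hE1 hE2 using hex
    have hle : qr F ^ (δ1 / 4 * m) ≤ qr F ^ (δ1 * m) :=
      Real.rpow_le_rpow_of_exponent_le hq.le (by nlinarith)
    refine ⟨(Finset.range (⌊qr F ^ (δ1 / 4 * m)⌋₊ + 1)).biUnion E, ?_, ?_⟩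
    · have h1 : (((Finset.range (⌊qr F ^ (δ1 / 4 * m)⌋₊ + 1)).biUnion E).card : ℝ) ≤
          ∑ n ∈ Finset.range (⌊qr F ^ (δ1 / 4 * m)⌋₊ + 1), ((E n).card : ℝ) := by
        exact_mod_cast Finset.card_biUnion_le
      have h2 : ∑ n ∈ Finset.range (⌊qr F ^ (δ1 / 4 * m)⌋₊ + 1), ((E n).card : ℝ) ≤
          ∑ n ∈ Finset.range (⌊qr F ^ (δ1 / 4 * m)⌋₊ + 1), C1 * qr F ^ ((1 - δ1) * m) :=
        Finset.sum_le_sum fun n _ => hE1 n
      rw [Finset.sum_const, Finset.card_range, nsmul_eq_mul] at h2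
      have h3 : 1 ≤ qr F ^ (δ1 / 4 * m) := Real.one_le_rpow hq.le (by positivity)
      have h4 : ((⌊qr F ^ (δ1 / 4 * m)⌋₊ + 1 : ℕ) : ℝ) ≤ 2 * qr F ^ (δ1 / 4 * m) := by
        push_cast
        have := Nat.floor_le (show 0 ≤ qr F ^ (δ1 / 4 * m) by positivity)
        linarith
      have h5 : qr F ^ (δ1 / 4 * m) * qr F ^ ((1 - δ1) * m) ≤ qr F ^ ((1 - δ1 / 4) * m) := by
        rw [← Real.rpow_add hq0]
        exact Real.rpow_le_rpow_of_exponent_le hq.le (by nlinarith)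
      have h6 : 0 ≤ C1 * qr F ^ ((1 - δ1) * m) := by positivity
      calc _ ≤ _ := h1.trans h2
        _ ≤ 2 * qr F ^ (δ1 / 4 * m) * (C1 * qr F ^ ((1 - δ1) * m)) :=
            mul_le_mul_of_nonneg_right h4 h6
        _ = 2 * C1 * (qr F ^ (δ1 / 4 * m) * qr F ^ ((1 - δ1) * m)) := by ring
        _ ≤ _ := mul_le_mul_of_nonneg_left h5 (by linarith)
    · intro h hh0 hdeg hE n hmn hnq
      have hmem : h ∈ Lw F m := mem_Lw.2 hdeg
      have hnE : h ∉ E n := by
        intro hcon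
        apply hE
        rw [Finset.mem_biUnion]
        refine ⟨n, ?_, hcon⟩
        rw [Finset.mem_range]
        exact Nat.lt_succ_of_le (Nat.le_floor hnq)
      have h1 := hE2 n hmn (hnq.trans hle) h hmem hnE hh0
      have h2 := corr_ge hDKR F k l n m hk hl h hmn hdeg
      have h3 : qr F ^ ((n : ℝ) - δ1 * m) = qr F ^ (-(δ1 * m)) * qr F ^ n := by
        rw [← Real.rpow_natCast, ← Real.rpow_add hq0]
        congr 1
        ring
      rw [h3] at h1
      have hqn : 0 < qr F ^ n := by positivity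
      have h4 : C1 * (qr F ^ (-(δ1 * m)) * qr F ^ n) ≤ 1 / 2 * qr F ^ n := by
        rw [← mul_assoc]
        exact mul_le_mul_of_nonneg_right hc hqn.le
      have h5 : qr F ^ n / 2 ≤ Mt P P' n h := by
        have := (abs_le.1 (h1.trans h4)).2
        linarith
      have h6 : qr F ^ (-(δ1 * m)) ≤ qr F ^ (-(δ1 / 4 * m)) :=
        Real.rpow_le_rpow_of_exponent_le hq.le (by nlinarith)
      have h7 : 0 ≤ qr F ^ (-(δ1 * m)) := by positivity
      have h8 : 0 ≤ Mt P P' n h := by linarith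
      calc _ ≤ C1 * (qr F ^ (-(δ1 * m)) * qr F ^ n) := h1
        _ ≤ C1 * (qr F ^ (-(δ1 * m)) * (2 * Mt P P' n h)) := by
            refine mul_le_mul_of_nonneg_left ?_ (by linarith)
            exact mul_le_mul_of_nonneg_left (by linarith) h7
        _ = 2 * C1 * qr F ^ (-(δ1 * m)) * Mt P P' n h := by ring
        _ ≤ _ := by
            refine mul_le_mul_of_nonneg_right ?_ h8
            exact mul_le_mul_of_nonneg_left h6 (by linarith)
  · -- small `m`
    refine ⟨Lw F m, ?_, ?_⟩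
    · rw [card_Lw]
      push_cast
      have h1 : qr F ^ (δ1 * m) < 2 * C1 := by
        rw [not_le, Real.rpow_neg hq0.le] at hc
        have h2 : 0 < qr F ^ (δ1 * m) := by positivity
        rw [← div_eq_mul_inv, lt_div_iff₀ h2] at hc
        linarith
      have h2 : qr F ^ (δ1 / 4 * m) ≤ qr F ^ (δ1 * m) :=
        Real.rpow_le_rpow_of_exponent_le hq.le (by nlinarith)
      have h3 : qr F ^ m = qr F ^ (δ1 / 4 * m) * qr F ^ ((1 - δ1 / 4) * m) := by
        rw [← Real.rpow_natCast, ← Real.rpow_add hq0]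
        congr 1
        ring
      have h4 : 0 ≤ qr F ^ ((1 - δ1 / 4) * m) := by positivity
      calc qr F ^ m = qr F ^ (δ1 / 4 * m) * qr F ^ ((1 - δ1 / 4) * m) := h3
        _ ≤ _ := mul_le_mul_of_nonneg_right (h2.trans h1.le) h4
    · intro h _ hdeg hE
      exact absurd (mem_Lw.2 hdeg) hE

end Pool.Agent.Helper62.FC
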