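import Pool.Agent.Helper15.FC.St1

set_option autoImplicit false

/-!
# Module PWR of project FC: power sums with nonnegative weights
-/

open Pool.Agent.Helper15.FC Polynomial Filter Topology

namespace Pool.Agent.Helper62.FC

/-- Simultaneous recurrence of finitely many unit complex numbers. -/
theorem recur (n : ℕ) (u : Fin n → ℂ) (hu : ∀ i, ‖u i‖ = 1) (N : ℕ) :
    ∃ t : ℕ, N ≤ t ∧ ∀ i, ‖u i ^ t - 1‖ ≤ 1 / 2 := by
  have hmem : ∀ s : ℕ, (fun i => u i ^ s) ∈ Metric.closedBall (0 : Fin n → ℂ) 1 := by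
    intro s
    rw [mem_closedBall_zero_iff, pi_norm_le_iff_of_nonneg zero_le_one]
    intro i
    simp [hu i]
  obtain ⟨a, -, φ, hφ, hlim⟩ :=
    (isCompact_closedBall (0 : Fin n → ℂ) 1).tendsto_subseq hmem
  have hC := hlim.cauchySeq
  obtain ⟨K, hK⟩ := Metric.cauchySeq_iff.1 hC (1 / 2) (by norm_num)
  have h1 := hK (K + N) (by omega) K le_rfl
  have hmono : ∀ m : ℕ, φ K + m ≤ φ (K + m) := by
    intro m
    induction m with
    | zero => simp
    | succ m ih =>
      have := hφ (show K + m < K + (m + 1) by omega)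
      omega
  have hN := hmono N
  refine ⟨φ (K + N) - φ K, by omega, ?_⟩
  intro i
  have h2 : dist (u i ^ φ (K + N)) (u i ^ φ K) < 1 / 2 :=
    lt_of_le_of_lt (dist_le_pi_dist (fun i => u i ^ φ (K + N)) (fun i => u i ^ φ K) i) h1
  rw [dist_eq_norm] at h2
  have h3 : u i ^ φ (K + N) - u i ^ φ K = u i ^ φ K * (u i ^ (φ (K + N) - φ K) - 1) := by
    have : φ (K + N) = φ K + (φ (K + N) - φ K) := by omega
    rw [mul_sub, ← pow_add, ← this, mul_one]
  rw [h3, norm_mul, norm_pow, hu i, one_pow, one_mul] at h2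
  exact h2.le

theorem hPWR : StPWR := by
  intro n β w R C t0 hw hR hb i0 hi0
  by_contra hcon
  have hgt : R < ‖β i0‖ := lt_of_not_ge hcon
  obtain ⟨u, hu, hβ⟩ : ∃ u : Fin n → ℂ, (∀ i, ‖u i‖ = 1) ∧ ∀ i, β i = (‖β i‖ : ℂ) * u i := by
    refine ⟨fun i => if β i = 0 then 1 else β i / (‖β i‖ : ℂ), ?_, ?_⟩
    · intro i
      by_cases h : β i = 0
      · simp [h]
      · have h' : ‖β i‖ ≠ 0 := norm_ne_zero_iff.2 h
        simp [h, h']
    · intro i
      by_cases h : β i = 0
      · simp [h]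
      · have h' : (‖β i‖ : ℂ) ≠ 0 := by
          exact_mod_cast norm_ne_zero_iff.2 h
        simp only [h, if_false]
        field_simp
  have hr : 1 < ‖β i0‖ / R := by
    rw [lt_div_iff₀ hR]; linarith
  have hT := tendsto_pow_atTop_atTop_of_one_lt hr
  obtain ⟨N, hN⟩ := (eventually_atTop.1 (hT.eventually_gt_atTop (2 * C / w i0)))
  obtain ⟨t, ht, hrec⟩ := recur n u hu (max N t0)
  have htN : N ≤ t := le_trans (le_max_left _ _) ht
  have ht0 : t0 ≤ t := le_trans (le_max_right _ _) ht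
  have h1 := hN t htN
  have h2 := hb t ht0
  have hre : ∀ i, (‖β i‖ ^ t) / 2 ≤ (β i ^ t).re := by
    intro i
    have h3 : β i ^ t = ((‖β i‖ ^ t : ℝ) : ℂ) * u i ^ t := by
      conv_lhs => rw [hβ i]
      rw [mul_pow]
      push_cast
      rfl
    rw [h3, Complex.re_ofReal_mul]
    have h4 : 1 / 2 ≤ (u i ^ t).re := by
      have h5 := (Complex.abs_re_le_norm (u i ^ t - 1)).trans (hrec i)
      rw [Complex.sub_re, Complex.one_re, abs_le] at h5
      linarith [h5.1]
    have h6 : 0 ≤ ‖β i‖ ^ t := by positivity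
    nlinarith
  have h7 : w i0 * (‖β i0‖ ^ t / 2) ≤ (∑ i, (w i : ℂ) * β i ^ t).re := by
    rw [Complex.re_sum]
    have h8 : ∀ i ∈ (Finset.univ : Finset (Fin n)), 0 ≤ ((w i : ℂ) * β i ^ t).re := by
      intro i _
      rw [Complex.re_ofReal_mul]
      exact mul_nonneg (hw i) (le_trans (by positivity) (hre i))
    refine le_trans ?_ (Finset.single_le_sum h8 (Finset.mem_univ i0))
    rw [Complex.re_ofReal_mul]
    exact mul_le_mul_of_nonneg_left (hre i0) hi0.le
  have h9 : w i0 * (‖β i0‖ ^ t / 2) ≤ C * R ^ t :=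
    h7.trans ((Complex.re_le_norm _).trans h2)
  rw [div_pow, div_lt_div_iff₀ hi0 (pow_pos hR t)] at h1
  linarith

end Pool.Agent.Helper62.FC
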